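import Mathlib

/-!
# Bounds for the numbers of characters of given height: the abstract argument
-/

set_option autoImplicit false

namespace Pool.Agent.Q17.KH

/-- exponential growth against a power -/
lemma exp_beats (C k : ℕ) : ∃ r : ℕ, 1 ≤ r ∧ C * r ^ k < 2 ^ r := by
  have h1 : Filter.Tendsto (fun n : ℕ => (n : ℝ) ^ k / (2 : ℝ) ^ n) Filter.atTop (nhds 0) :=
    tendsto_pow_const_div_const_pow_of_one_lt k (by norm_num)
  have h2 : (0 : ℝ) < 1 / (C + 1) := by positivity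
  obtain ⟨N, hN⟩ := Filter.eventually_atTop.mp (h1.eventually (gt_mem_nhds h2))
  refine ⟨max N 1, le_max_right _ _, ?_⟩
  have h3 := hN (max N 1) (le_max_left _ _)
  rw [div_lt_div_iff₀ (by positivity) (by positivity), one_mul] at h3
  have h4 : (max N 1) ^ k * (C + 1) < 2 ^ (max N 1) := by exact_mod_cast h3
  have h5 : C * (max N 1) ^ k ≤ (max N 1) ^ k * (C + 1) := by
    nlinarith [Nat.zero_le ((max N 1) ^ k)]
  exact lt_of_le_of_lt h5 h4

/-- bounds for the numbers of heights divisible by `M`, up to small powers, imply the bound for the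
total number -/
theorem height_pow {ι : Type 1} (k δ N a : ι → ℕ) (kh : ι → ℕ → ℕ)
    (hδ : ∀ x, 1 ≤ δ x) (hN : ∀ x, 1 ≤ N x)
    (hk : ∀ x, k x ≤ ∑ h ∈ Finset.range (a x + 1), kh x h)
    (hmul : ∀ x y, ∃ z, k z = k x * k y ∧ δ z = δ x * δ y ∧ N z = N x * N y ∧
      a z = a x + a y ∧ ∀ i j, kh x i * kh y j ≤ kh z (i + j))
    (e : ι) (he : 1 ≤ kh e 1) (M : ℕ) (hM : 1 ≤ M)
    (h : ∀ n, ∃ C : ℕ, ∀ x, ∀ i, M ∣ i → kh x i ^ n ≤ C * (δ x ^ n * N x)) (x : ι) :
    k x ≤ δ x := by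
  by_contra hx
  push Not at hx
  -- powers
  have hpow : ∀ (x : ι) (n : ℕ), 1 ≤ n → ∃ z, k z = k x ^ n ∧ δ z = δ x ^ n ∧ N z = N x ^ n ∧
      a z = n * a x ∧ (1 ≤ kh x 1 → 1 ≤ kh z n) := by
    intro x n hn
    induction n, hn using Nat.le_induction with
    | base => exact ⟨x, (pow_one _).symm, (pow_one _).symm, (pow_one _).symm, (one_mul _).symm,
        fun h => h⟩
    | succ n _ ih =>
        obtain ⟨y, h1, h2, h3, h4, h5⟩ := ih
        obtain ⟨z, h6, h7, h8, h9, h10⟩ := hmul y x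
        refine ⟨z, by rw [h6, h1, pow_succ], by rw [h7, h2, pow_succ], by rw [h8, h3, pow_succ],
          by rw [h9, h4]; ring, fun h => ?_⟩
        exact (Nat.mul_le_mul (h5 h) h).trans (h10 n 1)
  -- the exponent
  obtain ⟨m, hm⟩ : ∃ m : ℕ, 2 * N x * δ x ^ m ≤ k x ^ m := by
    have h1 : Filter.Tendsto (fun n : ℕ => ((k x : ℝ) / δ x) ^ n) Filter.atTop Filter.atTop := by
      refine tendsto_pow_atTop_atTop_of_one_lt ?_
      rw [one_lt_div (by exact_mod_cast hδ x)]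
      exact_mod_cast hx
    obtain ⟨m, hm⟩ := (h1.eventually_ge_atTop ((2 * N x : ℕ) : ℝ)).exists
    refine ⟨m, ?_⟩
    have hδ' : (0 : ℝ) < δ x := by exact_mod_cast hδ x
    rw [div_pow, le_div_iff₀ (by positivity)] at hm
    exact_mod_cast hm
  obtain ⟨C, hC⟩ := h m
  obtain ⟨n, hn, hbig⟩ := exp_beats ((a x + 1) ^ m * C * (δ e ^ (M * m) * N e ^ M)) m
  obtain ⟨y, h1, h2, h3, h4, -⟩ := hpow x n hn
  -- a height with many characters
  obtain ⟨i, hi⟩ : ∃ i, k y ≤ (a y + 1) * kh y i := by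
    by_contra hcon
    push Not at hcon
    have h5 : ∑ h ∈ Finset.range (a y + 1), (a y + 1) * kh y h <
        ∑ _h ∈ Finset.range (a y + 1), k y :=
      Finset.sum_lt_sum_of_nonempty ⟨0, Finset.mem_range.mpr (Nat.succ_pos _)⟩ fun h _ => hcon h
    rw [← Finset.mul_sum, Finset.sum_const, Finset.card_range, smul_eq_mul] at h5
    exact absurd (Nat.mul_le_mul_left (a y + 1) (hk y)) (not_le.mpr h5)
  -- the correction of the height
  obtain ⟨z, j, hMj, hz1, hz2, hz3⟩ : ∃ (z : ι) (j : ℕ), M ∣ j ∧ kh y i ≤ kh z j ∧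
      δ z ≤ δ y * δ e ^ M ∧ N z ≤ N y * N e ^ M := by
    by_cases hMi : M ∣ i
    · refine ⟨y, i, hMi, le_rfl, ?_, ?_⟩
      · exact Nat.le_mul_of_pos_right _ (Nat.pow_pos (hδ e))
      · exact Nat.le_mul_of_pos_right _ (Nat.pow_pos (hN e))
    · have hr : 0 < i % M := Nat.pos_of_ne_zero fun h0 => hMi (Nat.dvd_of_mod_eq_zero h0)
      have hr' : i % M < M := Nat.mod_lt _ hM
      obtain ⟨w, w1, w2, w3, w4, w5⟩ := hpow e (M - i % M) (by omega)
      obtain ⟨z, z1, z2, z3, z4, z5⟩ := hmul y w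
      refine ⟨z, i + (M - i % M), ?_, ?_, ?_, ?_⟩
      · have h6 := Nat.div_add_mod i M
        refine ⟨i / M + 1, ?_⟩
        rw [mul_add, mul_one]
        omega
      · have h7 := z5 i (M - i % M)
        exact (Nat.le_mul_of_pos_right _ (w5 he)).trans h7
      · rw [z2, w2]
        exact Nat.mul_le_mul_left _ (Nat.pow_le_pow_right (hδ e) (by omega))
      · rw [z3, w3]
        exact Nat.mul_le_mul_left _ (Nat.pow_le_pow_right (hN e) (by omega))
  have h5 := hC z j hMj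
  have h6 : k y ^ m ≤ (a y + 1) ^ m * (C * ((δ y * δ e ^ M) ^ m * (N y * N e ^ M))) := by
    calc k y ^ m ≤ ((a y + 1) * kh y i) ^ m := Nat.pow_le_pow_left hi m
      _ = (a y + 1) ^ m * kh y i ^ m := mul_pow _ _ _
      _ ≤ (a y + 1) ^ m * kh z j ^ m :=
          Nat.mul_le_mul_left _ (Nat.pow_le_pow_left hz1 m)
      _ ≤ (a y + 1) ^ m * (C * (δ z ^ m * N z)) := Nat.mul_le_mul_left _ h5
      _ ≤ (a y + 1) ^ m * (C * ((δ y * δ e ^ M) ^ m * (N y * N e ^ M))) := by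
          refine Nat.mul_le_mul_left _ (Nat.mul_le_mul_left _ (Nat.mul_le_mul ?_ hz3))
          exact Nat.pow_le_pow_left hz2 m
  rw [h1, h2, h3, h4] at h6
  have h7 : n * a x + 1 ≤ (a x + 1) * n := by nlinarith
  have h8 : (2 * N x * δ x ^ m) ^ n ≤ (k x ^ n) ^ m := by
    rw [← pow_mul, mul_comm n m, pow_mul]
    exact Nat.pow_le_pow_left hm n
  have h9 : (2 * N x * δ x ^ m) ^ n = 2 ^ n * ((δ x ^ n) ^ m * N x ^ n) := by
    rw [mul_pow, mul_pow, ← pow_mul, ← pow_mul, mul_comm m n]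
    ring
  have h10 : 2 ^ n * ((δ x ^ n) ^ m * N x ^ n) ≤
      ((a x + 1) ^ m * C * (δ e ^ (M * m) * N e ^ M) * n ^ m) * ((δ x ^ n) ^ m * N x ^ n) := by
    rw [← h9]
    refine (h8.trans h6).trans ?_
    calc (n * a x + 1) ^ m * (C * ((δ x ^ n * δ e ^ M) ^ m * (N x ^ n * N e ^ M)))
        ≤ ((a x + 1) * n) ^ m * (C * ((δ x ^ n * δ e ^ M) ^ m * (N x ^ n * N e ^ M))) :=
          Nat.mul_le_mul_right _ (Nat.pow_le_pow_left h7 m)
      _ = _ := by
          rw [mul_pow, mul_pow, pow_mul (δ e) M m]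
          ring
  have h11 := Nat.le_of_mul_le_mul_right h10
    (Nat.mul_pos (Nat.pow_pos (Nat.pow_pos (hδ x))) (Nat.pow_pos (hN x)))
  omega

end Pool.Agent.Q17.KH
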