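import Pool.Agent.Q17.KH.Abs
import Pool.Agent.Q17.AM.Fin2
import Pool.Agent.Q111.OS.PBK
import Pool.Agent.Q150.FT.GCP
import Pool.Agent.Y62.GA.Common
import Pool.Agent.Y63.AWC.Deg

/-!
# Numbers of characters of given height: blocks
-/

set_option autoImplicit false

open scoped Classical

noncomputable section

namespace Pool.Agent.Q17.KH

open Pool.Agent.H254R3.IN hiding NN
open Pool.Agent.Q17.AM
open Pool.Agent.Q111.OS

lemma zero_nu (O : ValuationSubring ℂ) : (0 : ℂ) ∈ O.nonunits := by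
  rw [ValuationSubring.mem_nonunits_iff, map_zero]
  exact zero_lt_one

lemma one_nu (O : ValuationSubring ℂ) : (1 : ℂ) ∉ O.nonunits := by
  rw [ValuationSubring.mem_nonunits_iff, map_one]
  exact lt_irrefl _

/-- a `p`-group has only one block -/
theorem pgroup_block {p : ℕ} [Fact p.Prime] {O : ValuationSubring ℂ} (hO : (p : ℂ) ∈ O.nonunits)
    (P : Type) [Group P] [Fintype P] (hP : IsPGroup p P) :
    IsBlock O {χ : P → ℂ | IsIrr χ} ∧ IsDefectGroup p O {χ : P → ℂ | IsIrr χ} ⊤ := by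
  have h1 : IsIrr (fun _ : P => (1 : ℂ)) := Pool.Agent.Y62.GA.irr_one P
  obtain ⟨B, hB, h1B⟩ : ∃ B : Set (P → ℂ), IsBlock O B ∧ (fun _ : P => (1 : ℂ)) ∈ B :=
    ⟨_, ⟨_, h1, rfl⟩, h1, fun x => by
      rw [sub_self]
      exact zero_nu O⟩
  have hz : ∀ x : P, x ≠ 1 → blockCoeff B x = 0 := by
    intro x hx
    refine Pool.Agent.Q150.FT.coeff_sing p O hO B hB x ?_
    obtain ⟨k, hk⟩ := IsPGroup.iff_orderOf.mp hP x
    rw [hk]
    refine dvd_pow_self p fun h0 => hx ?_
    rw [h0, pow_zero, orderOf_eq_one_iff] at hk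
    exact hk
  have hOm : ∀ ψ : P → ℂ, IsIrr ψ → Om (blockCoeff B) ψ = blockCoeff B 1 := by
    intro ψ hψ
    unfold Om
    rw [Finset.sum_eq_single 1]
    · rw [mul_div_assoc, div_self hψ.one_ne, mul_one]
    · intro x _ hx
      rw [hz x hx, zero_mul]
    · intro h
      exact absurd (Finset.mem_univ _) h
  have hone : blockCoeff B 1 = 1 := by
    rw [← hOm _ h1, Om_blockCoeff hB.irr h1, if_pos h1B]
  have hall : B = {χ : P → ℂ | IsIrr χ} := by
    ext ψ
    refine ⟨fun h => hB.irr ψ h, fun h => ?_⟩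
    by_contra hn
    have h2 := Om_blockCoeff hB.irr h
    rw [if_neg hn, hOm ψ h, hone] at h2
    exact one_ne_zero h2
  rw [← hall]
  refine ⟨hB, 1, ?_, ?_, ?_⟩
  · have hc : Subgroup.centralizer ({1} : Set P) = ⊤ := by
      rw [eq_top_iff]
      intro x _
      rw [Subgroup.mem_centralizer_singleton_iff, one_mul, mul_one]
    have hp' : IsPGroup p (Subgroup.centralizer ({1} : Set P)) := hP.to_subgroup _
    obtain ⟨Q⟩ := (inferInstance : Nonempty (Sylow p (Subgroup.centralizer ({1} : Set P))))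
    refine ⟨Q, ?_⟩
    have hQ : (Q : Subgroup (Subgroup.centralizer ({1} : Set P))) = ⊤ := by
      have h3 : IsPGroup p (⊤ : Subgroup (Subgroup.centralizer ({1} : Set P))) :=
        hp'.to_subgroup _
      exact (Q.3 h3 le_top).symm
    rw [hQ, ← MonoidHom.range_eq_map, Subgroup.range_subtype, hc]
  · intro χ hχ
    rw [omega_one (hB.irr χ hχ)]
    exact one_nu O
  · rw [hone]
    exact one_nu O

/-- the number of members of `B` of height `h` -/
def kh (p : ℕ) {G : Type} [Group G] (D : Subgroup G) (B : Set (G → ℂ)) (h : ℕ) : ℕ :=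
  ({χ | χ ∈ B ∧ ∃ n : ℕ, (n : ℂ) = χ 1 ∧ n.factorization p = D.index.factorization p + h} :
    Set (G → ℂ)).ncard

/-- the heights are bounded -/
theorem sum_kh {p : ℕ} [Fact p.Prime] {O : ValuationSubring ℂ} (hO : (p : ℂ) ∈ O.nonunits)
    {G : Type} [Group G] [Fintype G] {B : Set (G → ℂ)} {D : Subgroup G} (hB : IsBlock O B)
    (hD : IsDefectGroup p O B D) :
    B.ncard ≤ ∑ h ∈ Finset.range ((Nat.card G).factorization p + 1), kh p D B h := by
  have hfin : B.Finite := block_fin hB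
  have h1 : B ⊆ ⋃ h ∈ Finset.range ((Nat.card G).factorization p + 1),
      {χ | χ ∈ B ∧ ∃ n : ℕ, (n : ℂ) = χ 1 ∧ n.factorization p = D.index.factorization p + h} := by
    intro χ hχ
    obtain ⟨n, hn0, hn⟩ := (hB.irr χ hχ).deg
    have h2 : D.index.factorization p ≤ n.factorization p := p_ht G p O hO B D hB hD χ hχ n hn
    have h3 : n ∣ Nat.card G := Pool.Agent.Y63.AWC.deg_dvd (hB.irr χ hχ) hn.symm
    have h4 : n.factorization p ≤ (Nat.card G).factorization p :=
      (Nat.factorization_le_iff_dvd hn0.ne' Nat.card_pos.ne').mpr h3 p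
    rw [Set.mem_iUnion₂]
    refine ⟨n.factorization p - D.index.factorization p, Finset.mem_range.mpr (by omega), hχ, n,
      hn, by omega⟩
  refine (Set.ncard_le_ncard h1 ?_).trans ?_
  · exact Set.Finite.biUnion (Finset.finite_toSet _) fun h _ => hfin.subset fun χ h => h.1
  · generalize Finset.range ((Nat.card G).factorization p + 1) = s
    induction s using Finset.induction_on with
    | empty => simp
    | insert a s ha ih =>
      rw [Finset.set_biUnion_insert, Finset.sum_insert ha]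
      exact (Set.ncard_union_le _ _).trans (Nat.add_le_add_left ih _)

/-- products -/
theorem kh_prod {p : ℕ} [Fact p.Prime] {O : ValuationSubring ℂ}
    {G₁ G₂ : Type} [Group G₁] [Group G₂] [Fintype G₁] [Fintype G₂] {B₁ : Set (G₁ → ℂ)}
    {B₂ : Set (G₂ → ℂ)} (h1 : IsBlock O B₁) (h2 : IsBlock O B₂) (D₁ : Subgroup G₁)
    (D₂ : Subgroup G₂) (i j : ℕ) :
    kh p D₁ B₁ i * kh p D₂ B₂ j ≤ kh p (D₁.prod D₂) (TB B₁ B₂) (i + j) := by
  unfold kh
  rw [← Set.ncard_prod, ← Set.ncard_image_of_injOn (f := fun q : (G₁ → ℂ) × (G₂ → ℂ) => tp q.1 q.2)]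
  · refine Set.ncard_le_ncard ?_ ((block_fin (block_TB h1 h2)).subset fun χ h => h.1)
    rintro _ ⟨⟨χ, ψ⟩, ⟨⟨hχ, n, hn, hn'⟩, ⟨hψ, m, hm, hm'⟩⟩, rfl⟩
    refine ⟨⟨χ, hχ, ψ, hψ, rfl⟩, n * m, ?_, ?_⟩
    · rw [Nat.cast_mul, hn, hm]
      rfl
    · have hn0 : n ≠ 0 := by
        rintro rfl
        exact (h1.irr χ hχ).one_ne (hn.symm.trans Nat.cast_zero)
      have hm0 : m ≠ 0 := by
        rintro rfl
        exact (h2.irr ψ hψ).one_ne (hm.symm.trans Nat.cast_zero)
      rw [Nat.factorization_mul hn0 hm0, Finsupp.add_apply, Subgroup.index_prod,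
        Nat.factorization_mul Subgroup.index_ne_zero_of_finite Subgroup.index_ne_zero_of_finite,
        Finsupp.add_apply]
      have e1 : n.factorization p = D₁.index.factorization p + i := hn'
      have e2 : m.factorization p = D₂.index.factorization p + j := hm'
      rw [e1, e2]
      ring
  · rintro ⟨a, b⟩ ⟨ha, hb⟩ ⟨a', b'⟩ ⟨ha', hb'⟩ h
    have h4 := tp_inj (h1.irr a ha.1) (h1.irr a' ha'.1) (h2.irr b hb.1) (h2.irr b' hb'.1) h
    exact Prod.ext h4.1 h4.2

end Pool.Agent.Q17.KH
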