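import Pool.Agent.Q17.KH.Blk
import Pool.Agent.Q17.AM.All
import Pool.Agent.Q18.CF.Lin

/-!
# A `p`-group with an irreducible character of degree `p`
-/

set_option autoImplicit false

open scoped Classical

noncomputable section

namespace Pool.Agent.Q17.KH

open Pool.Agent.H254R3.IN hiding NN
open Pool.Agent.Q17.AM Pool.Agent.Q17.WR Pool.Agent.Q17.RB

theorem exists_deg_p (p : ℕ) [Fact p.Prime] : ∃ (P : Type) (_ : Group P) (_ : Fintype P),
    IsPGroup p P ∧ ∃ θ : P → ℂ, IsIrr θ ∧ θ 1 = p := by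
  have hp : p.Prime := Fact.out
  have hne : NeZero p := ⟨hp.ne_zero⟩
  have hfin : Finite (Wr (Cy p) (Cy p) (Cy p)) :=
    Finite.of_equiv _ SemidirectProduct.equivProd.symm
  have hcard : Nat.card (Cy p) = p := by
    rw [Nat.card_congr Multiplicative.toAdd, Nat.card_zmod]
  have hc : Nat.card (Cy p →* ℂˣ) = p := by
    rw [Pool.Agent.Q18.CF.card_lin]
    have e : Abelianization (Cy p) ≃* Cy p := (MulEquiv.symm (Abelianization.equivOfComm))
    rw [Nat.card_congr e.toEquiv, hcard]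
  have hf : Finite (Cy p →* ℂˣ) := Nat.finite_of_card_ne_zero (by rw [hc]; exact hp.ne_zero)
  obtain ⟨e⟩ : Nonempty (Cy p ≃ (Cy p →* ℂˣ)) := Finite.card_eq.mp (hcard.trans hc.symm)
  let f : Cy p → Cy p → ℂ := fun ω g => ((e ω g : ℂˣ) : ℂ)
  have h1 := (p_fxi (Cy p) (Cy p) (fun ω => {f ω}) (fun ω χ hχ => by
    rw [Set.mem_singleton_iff] at hχ
    rw [hχ]
    exact Pool.Agent.Q18.CF.lin_irr (e ω)) (fun ω ω' h => by
    rw [Set.disjoint_singleton]
    intro h2
    refine h (e.injective (MonoidHom.ext fun g => Units.ext ?_))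
    exact congrFun h2 g)).1 f (fun ω => rfl)
  refine ⟨Wr (Cy p) (Cy p) (Cy p), inferInstance, Fintype.ofFinite _, ?_, nca f, h1, ?_⟩
  · refine IsPGroup.of_card (n := p + 1) ?_
    rw [SemidirectProduct.card, Nat.card_fun, hcard, pow_succ]
  · unfold nca
    rw [if_pos (SemidirectProduct.one_right)]
    have h2 : ∀ a : Cy p, prf (fun ω => f (a * ω)) (1 : Wr (Cy p) (Cy p) (Cy p)).left = 1 := by
      intro a
      unfold prf
      refine Finset.prod_eq_one fun ω _ => ?_
      change ((e (a * ω) 1 : ℂˣ) : ℂ) = 1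
      rw [map_one, Units.val_one]
    rw [Finset.sum_congr rfl fun a _ => h2 a, Finset.sum_const, Finset.card_univ,
      ← Nat.card_eq_fintype_card, hcard, nsmul_eq_mul, mul_one]

end Pool.Agent.Q17.KH
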